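import Mathlib

set_option autoImplicit false

/-! # The reciprocals of the primes in a coprime residue class are not summable (job of helper501, proof written by helper161). -/

/- Idea: Mathlib has `ArithmeticFunction.vonMangoldt.LSeries_residueClass_lower_bound` :
(1/phi(q))/(x-1) - C ≤ ∑' n, residueClass a n / n ^ x for x in (1,2], and `summable_residueClass_non_primes_div`.
If the sum of 1/p over p = a mod q converged, take P with the tail over p > P below eps; since
log p / p ^ (x-1) ≤ 1 / (e (x-1)) (or any bound 1/(x-1)), the prime part of the series is at most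
(constant depending on P) + eps/(x-1) for all x in (1,2], the non-prime part is at most a constant: contradiction as x -> 1
when eps < 1/phi(q). -/

namespace H54.Q.J2


namespace J_dir161

open ArithmeticFunction ArithmeticFunction.vonMangoldt

theorem tail (S : ℕ → ℝ) (hS : Summable S) (hS0 : ∀ n, 0 ≤ S n) (δ : ℝ) (hδ : 0 < δ) :
    ∃ P : ℕ, Summable (fun n => if n < P then 0 else S n) ∧
      ∑' n, (if n < P then 0 else S n) < δ := by
  have h1 := hS.hasSum.tendsto_sum_nat
  have h2 : ∀ᶠ P in Filter.atTop, ∑' n, S n - δ < ∑ n ∈ Finset.range P, S n :=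
    h1.eventually_const_lt (by linarith)
  obtain ⟨P, hP⟩ := h2.exists
  refine ⟨P, ?_, ?_⟩
  · refine Summable.of_nonneg_of_le (fun n => ?_) (fun n => ?_) hS
    · split_ifs
      · exact le_refl _
      · exact hS0 n
    · split_ifs
      · exact hS0 n
      · exact le_refl _
  · have hs1 : Summable (fun n => if n < P then 0 else S n) := by
      refine Summable.of_nonneg_of_le (fun n => ?_) (fun n => ?_) hS
      · split_ifs
        · exact le_refl _
        · exact hS0 n
      · split_ifs
        · exact hS0 n
        · exact le_refl _
    have hs2 : HasSum (fun n => if n < P then S n else 0) (∑ n ∈ Finset.range P, S n) := by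
      have h3 : HasSum (fun n => if n < P then S n else 0)
          (∑ n ∈ Finset.range P, (if n < P then S n else 0)) := by
        refine hasSum_sum_of_ne_finset_zero ?_
        intro n hn
        rw [Finset.mem_range] at hn
        rw [if_neg hn]
      have h4 : ∑ n ∈ Finset.range P, (if n < P then S n else 0) =
          ∑ n ∈ Finset.range P, S n := by
        refine Finset.sum_congr rfl fun n hn => ?_
        rw [if_pos (Finset.mem_range.1 hn)]
      rw [h4] at h3
      exact h3
    have h5 : (fun n => (if n < P then S n else 0) + (if n < P then 0 else S n)) = S := by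
      funext n
      split_ifs <;> simp
    have h6 := hs2.add hs1.hasSum
    rw [h5] at h6
    have h7 := h6.tsum_eq
    linarith

theorem main (q a : ℕ) (hq : 0 < q) (ha : Nat.Coprime a q)
    (hS : Summable (fun n : ℕ => if n.Prime ∧ n % q = a % q then (1 : ℝ) / n else 0)) :
    False := by
  have : NeZero q := ⟨hq.ne'⟩
  have hau : IsUnit ((a : ℕ) : ZMod q) := (ZMod.isUnit_iff_coprime a q).2 ha
  obtain ⟨C, hC⟩ := LSeries_residueClass_lower_bound hau
  set c : ℝ := (q.totient : ℝ)⁻¹ with hc
  have hcpos : 0 < c := by
    rw [hc]
    exact inv_pos.mpr (mod_cast Nat.totient_pos.2 hq)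
  obtain ⟨P, hPs, hPt⟩ := tail _ hS (fun n => by split_ifs <;> positivity) (c / 2)
    (by linarith)
  set g : ℕ → ℝ := fun n => (if n.Prime then 0 else residueClass (a : ZMod q) n) / n with hg
  have hgs : Summable g := summable_residueClass_non_primes_div _
  set h : ℕ → ℝ := fun n => if n < P then residueClass (a : ZMod q) n / n else 0 with hh
  have hhs : Summable h := by
    refine summable_of_ne_finset_zero (s := Finset.range P) ?_
    intro n hn
    rw [Finset.mem_range] at hn
    rw [hh]
    exact if_neg hn
  have hr0 : ∀ n, 0 ≤ residueClass (a : ZMod q) n := residueClass_nonneg _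
  have key : ∀ x : ℝ, x ∈ Set.Ioc (1 : ℝ) 2 →
      c / (x - 1) - C ≤ ∑' n, g n + ∑' n, h n + (c / 2) / (x - 1) := by
    intro x hx
    have hx1 : 0 < x - 1 := by linarith [hx.1]
    refine (hC hx).trans ?_
    set t : ℕ → ℝ := fun n => if n < P then 0 else
      (if n.Prime ∧ n % q = a % q then (1 : ℝ) / n else 0) with ht
    have hsum : Summable fun n => g n + h n + (1 / (x - 1)) * t n :=
      (hgs.add hhs).add (hPs.mul_left _)
    have hle : ∀ n : ℕ, residueClass (a : ZMod q) n / (n : ℝ) ^ x ≤
        g n + h n + (1 / (x - 1)) * t n := by
      intro n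
      have hg0 : 0 ≤ g n := by
        rw [hg]
        refine div_nonneg ?_ (Nat.cast_nonneg _)
        split_ifs
        · exact le_refl _
        · exact hr0 n
      have hh0 : 0 ≤ h n := by
        rw [hh]
        dsimp only
        split_ifs
        · exact div_nonneg (hr0 n) (Nat.cast_nonneg _)
        · exact le_refl _
      have ht0 : 0 ≤ t n := by
        rw [ht]
        dsimp only
        split_ifs <;> positivity
      have ht0' : 0 ≤ (1 / (x - 1)) * t n := by positivity
      rcases Nat.eq_zero_or_pos n with rfl | hn
      · rw [residueClass_apply_zero, zero_div]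
        positivity
      have hn1 : (1 : ℝ) ≤ n := by exact_mod_cast hn
      have hb : residueClass (a : ZMod q) n / (n : ℝ) ^ x ≤ residueClass (a : ZMod q) n / n := by
        refine div_le_div_of_nonneg_left (hr0 n) (by linarith) ?_
        conv_lhs => rw [← Real.rpow_one (n : ℝ)]
        exact Real.rpow_le_rpow_of_exponent_le hn1 (by linarith [hx.1])
      by_cases hp : n.Prime
      · by_cases hlt : n < P
        · have e : h n = residueClass (a : ZMod q) n / n := by
            rw [hh]
            exact if_pos hlt
          linarith
        · by_cases hmod : n % q = a % q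
          · have e : t n = 1 / n := by
              rw [ht]
              dsimp only
              rw [if_neg hlt, if_pos ⟨hp, hmod⟩]
            have hzm : (n : ZMod q) = (a : ZMod q) := (ZMod.natCast_eq_natCast_iff' n a q).2 hmod
            have er : residueClass (a : ZMod q) n = Real.log n := by
              have h8 : n ∈ {n : ℕ | (n : ZMod q) = (a : ZMod q)} := hzm
              have h9 : residueClass (a : ZMod q) n = vonMangoldt n :=
                Set.indicator_of_mem h8 _
              rw [h9, vonMangoldt_apply_prime hp]
            have hlog : Real.log n ≤ (n : ℝ) ^ (x - 1) / (x - 1) :=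
              Real.log_le_rpow_div (Nat.cast_nonneg n) hx1
            have hnpos : (0 : ℝ) < n := by linarith
            have e3 : (n : ℝ) ^ x = (n : ℝ) ^ (x - 1) * n := by
              rw [← Real.rpow_add_one hnpos.ne']
              congr 1
              ring
            have hpp : (0 : ℝ) < (n : ℝ) ^ (x - 1) := Real.rpow_pos_of_pos hnpos _
            have e2 : residueClass (a : ZMod q) n / (n : ℝ) ^ x ≤ (1 / (x - 1)) * (1 / n) := by
              rw [er, e3, div_le_iff₀ (by positivity)]
              have : 1 / (x - 1) * (1 / (n : ℝ)) * ((n : ℝ) ^ (x - 1) * n) =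
                  (n : ℝ) ^ (x - 1) / (x - 1) := by
                field_simp
              rw [this]
              exact hlog
            rw [e] at ht0' ⊢
            linarith
          · have er : residueClass (a : ZMod q) n = 0 := by
              have : n ∉ {n : ℕ | (n : ZMod q) = (a : ZMod q)} := fun hh =>
                hmod ((ZMod.natCast_eq_natCast_iff' n a q).1 hh)
              exact Set.indicator_of_notMem this _
            rw [er, zero_div]
            positivity
      · have e : g n = residueClass (a : ZMod q) n / n := by
          rw [hg]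
          dsimp only
          rw [if_neg hp]
        linarith
    have hnn : ∀ n : ℕ, 0 ≤ residueClass (a : ZMod q) n / (n : ℝ) ^ x := fun n =>
      div_nonneg (hr0 n) (Real.rpow_nonneg (Nat.cast_nonneg _) _)
    have hfs : Summable fun n : ℕ => residueClass (a : ZMod q) n / (n : ℝ) ^ x :=
      Summable.of_nonneg_of_le hnn hle hsum
    refine (hfs.tsum_le_tsum hle hsum).trans ?_
    have e1 : ∑' n, (g n + h n + (1 / (x - 1)) * t n) =
        ∑' n, g n + ∑' n, h n + (1 / (x - 1)) * ∑' n, t n := by
      rw [(hgs.add hhs).tsum_add (hPs.mul_left _), hgs.tsum_add hhs, tsum_mul_left]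
    rw [e1]
    have e2 : (1 / (x - 1)) * ∑' n, t n ≤ (c / 2) / (x - 1) := by
      rw [one_div, inv_mul_eq_div]
      exact div_le_div_of_nonneg_right hPt.le hx1.le
    linarith
  set E : ℝ := |C + ∑' n, g n + ∑' n, h n| + 1 with hE
  have hEpos : 0 < E := by positivity
  set y : ℝ := min 1 (c / (4 * E)) with hy
  have hy0 : 0 < y := by
    rw [hy]
    exact lt_min one_pos (by positivity)
  have hy1 : y ≤ 1 := min_le_left _ _
  have hy2 : y ≤ c / (4 * E) := min_le_right _ _
  have hk := key (1 + y) ⟨by linarith, by linarith⟩
  rw [add_sub_cancel_left] at hk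
  have h1 : c / y = c / 2 / y + c / 2 / y := by
    field_simp
    ring
  have h2 : c / 2 / y ≤ C + ∑' n, g n + ∑' n, h n := by linarith
  have h3 : c / 2 / y < E := by
    have := le_abs_self (C + ∑' n, g n + ∑' n, h n)
    linarith
  rw [div_lt_iff₀ hy0] at h3
  have h4 : E * y ≤ c / 4 := by
    have := mul_le_mul_of_nonneg_left hy2 hEpos.le
    have e : E * (c / (4 * E)) = c / 4 := by field_simp
    linarith
  linarith

end J_dir161

theorem not_summable_prime_recip (q a : ℕ) (hq : 0 < q) (ha : Nat.Coprime a q) :
    ¬ Summable (fun n : ℕ => if n.Prime ∧ n % q = a % q then (1 : ℝ) / n else 0) := by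
  intro hS
  exact J_dir161.main q a hq ha hS

end H54.Q.J2
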