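import Pool.Agent.H54.Q.Core
import Pool.Agent.H54.Q.J1
import Pool.Agent.H54.Q.J2
import Pool.Agent.H54.Q.J3
import Pool.Agent.H54.Q.J4
import Pool.Agent.H54.Q.J5
import Pool.Agent.H54.Q.G13
import Pool.Agent.H54.Q.G16

/-! # Putting the pieces together: queens graphs are n-colourable for almost all n -/

set_option autoImplicit false

namespace H54.Q

open Filter Topology

/-- product theorem -/
theorem SQ_mul (k u : ℕ) (hk : SQ k) (hu : Nat.Coprime u 6) : SQ (k * u) := J1.SQ_mul k u hk hu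

theorem SQ_one : SQ 1 := ⟨fun _ _ => 0, fun _ _ _ _ => Nat.one_pos, fun x y x' y' hx hy hx' hy' _ _ => by omega⟩

/-- the classical case -/
theorem SQ_coprime (n : ℕ) (hn : Nat.Coprime n 6) : SQ n := by
  have h := SQ_mul 1 n SQ_one hn
  rwa [one_mul] at h

/-- the case `n = 13 m + 1` -/
theorem SQ_13 (m : ℕ) (hm : Nat.Coprime m 210) : SQ (13 * m + 1) := by
  have g : J5.Gadget 13 8 3 (G13.ent G13.tGp) (G13.ent G13.tNR) (G13.ent G13.tD0)
      (G13.ent G13.tD1) (G13.ent G13.tA0) (G13.ent G13.tA1) := by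
    obtain ⟨h1, h2, h3, h4, h5, h6, h7, h8, h9, h10, h11, h12, h13, h14, h15, h16, h17, h18,
      h19, h20, h21, h22, h23, h24⟩ := G13.gadget
    exact ⟨h1, h2, h3, h4, h5, h6, h7, h8, h9, h10, h11, h12, h13, h14, h15, h16, h17, h18,
      h19, h20, h21, h22, h23, h24⟩
  exact J5.insertion 13 8 3 _ _ _ _ _ _ g m hm

/-- the case `n = 16 m + 1` -/
theorem SQ_16 (m : ℕ) (hm : Nat.Coprime m 210) : SQ (16 * m + 1) := by
  have g : J5.Gadget 16 5 5 (G16.ent G16.tGp) (G16.ent G16.tNR) (G16.ent G16.tD0)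
      (G16.ent G16.tD1) (G16.ent G16.tA0) (G16.ent G16.tA1) := by
    obtain ⟨h1, h2, h3, h4, h5, h6, h7, h8, h9, h10, h11, h12, h13, h14, h15, h16, h17, h18,
      h19, h20, h21, h22, h23, h24⟩ := G16.gadget
    exact ⟨h1, h2, h3, h4, h5, h6, h7, h8, h9, h10, h11, h12, h13, h14, h15, h16, h17, h18,
      h19, h20, h21, h22, h23, h24⟩
  exact J5.insertion 16 5 5 _ _ _ _ _ _ g m hm

open Classical in
theorem density_SQ :
    Tendsto (fun N : ℕ => (((Finset.range N).filter (fun n => ¬ SQ n)).card : ℝ) / N)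
      atTop (𝓝 0) := by
  refine J4.assembly SQ SQ_coprime SQ_mul SQ_13 SQ_16 ?_
  intro q a hq ha
  have h := J3.density_zero {p : ℕ | p.Prime ∧ p % q = a % q} (fun p hp => hp.1) (by
    have h0 := J2.not_summable_prime_recip q a hq ha
    convert h0 using 3
    rename_i x
    by_cases hx : x.Prime ∧ x % q = a % q
    · rw [if_pos hx, if_pos (show x ∈ {p : ℕ | p.Prime ∧ p % q = a % q} from hx)]
    · rw [if_neg hx, if_neg (show ¬ x ∈ {p : ℕ | p.Prime ∧ p % q = a % q} from hx)])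
  refine h.congr ?_
  intro N
  congr 3
  ext n
  simp only [Finset.mem_filter, Set.mem_ofPred_eq, and_imp]

end H54.Q
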